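import Pool.Agent.Helper37.Arb.Goals

/-!
ARB, GOODSTACK: sequences of a stack of two parallel tangles.
-/

namespace Pool.Agent.Helper81.Arb

open Pool.Agent.Helper37.Arb Function

section conv

variable {f f' g g' : ℤ → ℝ}

theorem fin_l (hf : (support f).Finite) (g : ℤ → ℝ) (v : ℤ) :
    (support fun i => f i * g (v - i)).Finite :=
  hf.subset fun i hi => by
    intro h0
    exact hi (by simp [h0])

theorem conv_sub_left (hf : (support f).Finite) (hf' : (support f').Finite) (g : ℤ → ℝ) (v : ℤ) :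
    conv (fun s => f s - f' s) g v = conv f g v - conv f' g v := by
  unfold conv
  rw [← finsum_sub_distrib (fin_l hf g v) (fin_l hf' g v)]
  exact finsum_congr fun i => by ring

theorem conv_sub_right (hf : (support f).Finite) (g g' : ℤ → ℝ) (v : ℤ) :
    conv f (fun s => g s - g' s) v = conv f g v - conv f g' v := by
  unfold conv
  rw [← finsum_sub_distrib (fin_l hf g v) (fin_l hf g' v)]
  exact finsum_congr fun i => by ring

theorem conv_add_right (hf : (support f).Finite) (g g' : ℤ → ℝ) (v : ℤ) :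
    conv f (fun s => g s + g' s) v = conv f g v + conv f g' v := by
  unfold conv
  rw [← finsum_add_distrib (fin_l hf g v) (fin_l hf g' v)]
  exact finsum_congr fun i => by ring

theorem conv_rev (f g : ℤ → ℝ) (n m v : ℤ) :
    conv f g (n + m - v) = conv (fun s => f (n - s)) (fun s => g (m - s)) v := by
  unfold conv
  rw [← finsum_comp_equiv (Equiv.subLeft n)]
  refine finsum_congr fun i => ?_
  simp only [Equiv.subLeft_apply]
  congr 2
  ring

/-- shift in the second factor -/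
theorem conv_shift_right (f g : ℤ → ℝ) (v : ℤ) :
    conv f (fun s => g (s - 1)) v = conv f g (v - 1) := by
  unfold conv
  refine finsum_congr fun i => ?_
  rw [show v - 1 - i = v - i - 1 by ring]

/-- shift in the first factor -/
theorem conv_shift_left (f g : ℤ → ℝ) (v : ℤ) :
    conv (fun s => f (s - 1)) g v = conv f g (v - 1) := by
  unfold conv
  rw [← finsum_comp_equiv (Equiv.addRight (1 : ℤ))]
  refine finsum_congr fun i => ?_
  simp only [Equiv.coe_addRight, add_sub_cancel_right]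
  congr 2
  ring

theorem conv_nonneg (hf : ∀ s, 0 ≤ f s) (hg : ∀ s, 0 ≤ g s) (v : ℤ) : 0 ≤ conv f g v :=
  finsum_nonneg fun i => mul_nonneg (hf i) (hg _)

theorem conv_pos (hf : ∀ s, 0 ≤ f s) (hg : ∀ s, 0 ≤ g s) (hs : (support f).Finite) {v : ℤ}
    (i : ℤ) (hi : 0 < f i) (hv : 0 < g (v - i)) : 0 < conv f g v :=
  lt_of_lt_of_le (mul_pos hi hv)
    (by
      unfold conv
      rw [finsum_eq_sum _ (fin_l hs g v)]
      refine Finset.single_le_sum (f := fun i => f i * g (v - i))
        (fun j _ => mul_nonneg (hf j) (hg _)) ?_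
      rw [Set.Finite.mem_toFinset]
      exact (mul_pos hi hv).ne')

theorem conv_zero {k l k' l' : ℤ} (hf : ∀ s, s < k ∨ l < s → f s = 0)
    (hg : ∀ s, s < k' ∨ l' < s → g s = 0) {v : ℤ} (hv : v < k + k' ∨ l + l' < v) :
    conv f g v = 0 := by
  unfold conv
  refine (finsum_congr fun i => ?_).trans finsum_zero
  by_cases h1 : i < k ∨ l < i
  · rw [hf i h1, zero_mul]
  · push Not at h1
    have : g (v - i) = 0 := hg _ (by rcases hv with hv | hv <;> [left; right] <;> omega)
    rw [this, mul_zero]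

theorem fin_of_zero {k l : ℤ} (hf : ∀ s, s < k ∨ l < s → f s = 0) : (support f).Finite :=
  (Set.finite_Icc k l).subset fun s hs => by
    by_contra h
    rw [Set.mem_Icc, not_and_or, not_le, not_le] at h
    exact hs (hf s h)

end conv

section good

variable {N k : ℤ} {L b : ℤ → ℝ}

theorem b_nonneg (h : Good2 N k L b) (s : ℤ) : 0 ≤ b s := by
  by_cases hs : s < k ∨ N - 1 - k < s
  · rw [h.half.b0 s hs]
  · push Not at hs
    exact (h.half.b1 s hs.1 hs.2).le

theorem R_zero (h : Good2 N k L b) (s : ℤ) (hs : s < k ∨ N - k < s) : L (N - s) = 0 := by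
  have ha := h.half.a0 s hs
  have hb := h.half.b0 s (by omega)
  rw [hb, zero_add] at ha
  exact ha

theorem L_zero (h : Good2 N k L b) (s : ℤ) (hs : s < k ∨ N - k < s) : L s = 0 := by
  have := R_zero h (N - s) (by omega)
  rwa [sub_sub_cancel] at this

theorem L_pos (h : Good2 N k L b) : 0 < L k := by
  have ha := h.half.a1 (N - k) h.half.ne' le_rfl
  have hb := h.half.b0 (N - k) (by omega)
  rwa [hb, zero_add, sub_sub_cancel] at ha

theorem rel_of (h : Good2 N k L b) : Rel L (fun s => L (N - s)) b :=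
  ⟨fin_of_zero (L_zero h), fin_of_zero (R_zero h), fin_of_zero h.half.b0, h.rel⟩

end good

theorem goodStack : GoalGoodStack := by
  intro hProd hNest N₁ k₁ N₂ k₂ L₁ b₁ L₂ b₂ h1 h2
  set R₁ : ℤ → ℝ := fun s => L₁ (N₁ - s) with hR1
  set R₂ : ℤ → ℝ := fun s => L₂ (N₂ - s) with hR2
  have fL1 := (rel_of h1).1
  have fR1 : (support R₁).Finite := (rel_of h1).2.1
  have fb1 := (rel_of h1).2.2.1
  have R1z : ∀ s, s < k₁ ∨ N₁ - k₁ < s → R₁ s = 0 := R_zero h1
  have R2z : ∀ s, s < k₂ ∨ N₂ - k₂ < s → R₂ s = 0 := R_zero h2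
  have R1n : ∀ s, 0 ≤ R₁ s := fun s => h1.L0 _
  have R2n : ∀ s, 0 ≤ R₂ s := fun s => h2.L0 _
  have e1 : ∀ s, L₁ s - R₁ s = b₁ s - b₁ (s - 1) := fun s => (h1.rel s).symm
  have e2 : ∀ s, L₂ s - R₂ s = b₂ s - b₂ (s - 1) := fun s => (h2.rel s).symm
  have hLR : ∀ v, conv L₁ L₂ (N₁ + N₂ - v) = conv R₁ R₂ v := fun v => conv_rev _ _ _ _ _
  set B : ℤ → ℝ := conv R₁ b₂ + conv b₁ L₂ with hB
  have hBv : ∀ v, B v = conv R₁ b₂ v + conv b₁ L₂ v := fun v => rfl
  -- the linear relation
  have hrel : ∀ v, B v - B (v - 1) = conv L₁ L₂ v - conv L₁ L₂ (N₁ + N₂ - v) := by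
    intro v
    rw [hLR]
    have h3 : conv R₁ (fun s => b₂ s - b₂ (s - 1)) v = conv R₁ (fun s => L₂ s - R₂ s) v := by
      congr 1
      funext s
      exact (e2 s).symm
    rw [conv_sub_right fR1, conv_sub_right fR1, conv_shift_right] at h3
    have h4 : conv (fun s => b₁ s - b₁ (s - 1)) L₂ v = conv (fun s => L₁ s - R₁ s) L₂ v := by
      congr 1
      funext s
      exact (e1 s).symm
    have fb1' : (support fun s => b₁ (s - 1)).Finite :=
      fin_of_zero (k := k₁ + 1) (l := N₁ - 1 - k₁ + 1) fun s hs => h1.half.b0 _ (by omega)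
    rw [conv_sub_left fb1 fb1', conv_sub_left fL1 fR1, conv_shift_left] at h4
    rw [hBv, hBv]
    linarith
  -- the symmetry of `B`
  have hsym : ∀ v, B (N₁ + N₂ - 1 - v) = B v := by
    intro v
    have h3 : conv R₁ b₂ (N₁ + N₂ - 1 - v) = conv L₁ b₂ v := by
      rw [show N₁ + N₂ - 1 - v = N₁ + (N₂ - 1) - v by ring, conv_rev]
      unfold conv
      refine finsum_congr fun i => ?_
      simp only [h2.half.pb, hR1, sub_sub_cancel]
    have h4 : conv b₁ L₂ (N₁ + N₂ - 1 - v) = conv b₁ R₂ v := by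
      rw [show N₁ + N₂ - 1 - v = (N₁ - 1) + N₂ - v by ring, conv_rev]
      unfold conv
      refine finsum_congr fun i => ?_
      simp only [h1.half.pb, hR2]
    have fb1' : (support fun s => b₁ (s - 1)).Finite :=
      fin_of_zero (k := k₁ + 1) (l := N₁ - 1 - k₁ + 1) fun s hs => h1.half.b0 _ (by omega)
    have h5 : conv (fun s => L₁ s - R₁ s) b₂ v = conv (fun s => b₁ s - b₁ (s - 1)) b₂ v := by
      congr 1
      funext s
      exact e1 s
    rw [conv_sub_left fL1 fR1, conv_sub_left fb1 fb1', conv_shift_left] at h5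
    have h6 : conv b₁ (fun s => L₂ s - R₂ s) v = conv b₁ (fun s => b₂ s - b₂ (s - 1)) v := by
      congr 1
      funext s
      exact e2 s
    rw [conv_sub_right fb1, conv_sub_right fb1, conv_shift_right] at h6
    rw [hBv, hBv, h3, h4]
    linarith
  have hk1 := h1.half.ne
  have hk2 := h2.half.ne
  have b1n := b_nonneg h1
  have b2n := b_nonneg h2
  have B0 : ∀ s, s < k₁ + k₂ ∨ N₁ + N₂ - 1 - (k₁ + k₂) < s → B s = 0 := by
    intro s hs
    rw [hBv, conv_zero R1z h2.half.b0 (by omega), conv_zero h1.half.b0 (L_zero h2) (by omega),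
      add_zero]
  have hR1p : 0 < R₁ (N₁ - k₁) := by
    simp only [hR1, sub_sub_cancel]
    exact L_pos h1
  have hlow : ∀ s, k₁ + k₂ ≤ s → s ≤ N₁ - 1 - k₁ + k₂ → 0 < conv b₁ L₂ s := by
    intro s hs hs'
    refine conv_pos b1n h2.L0 fb1 (s - k₂) (h1.half.b1 _ (by omega) (by omega)) ?_
    rw [sub_sub_cancel]
    exact L_pos h2
  have B1 : ∀ s, k₁ + k₂ ≤ s → s ≤ N₁ + N₂ - 1 - (k₁ + k₂) → 0 < B s := by
    intro s hs hs'
    rw [hBv]
    by_cases h : s ≤ N₁ - 1 - k₁ + k₂
    · exact add_pos_of_nonneg_of_pos (conv_nonneg R1n b2n s) (hlow s hs h)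
    · refine add_pos_of_pos_of_nonneg ?_ (conv_nonneg b1n h2.L0 s)
      exact conv_pos R1n b2n fR1 (N₁ - k₁) hR1p (h2.half.b1 _ (by omega) (by omega))
  refine ⟨fun s => conv_nonneg h1.L0 h2.L0 s, hrel, ?_⟩
  refine ⟨Or.inl rfl, by omega, by omega, ?_, ?_, B0, B1, ?_, ?_, ?_⟩
  · intro s hs
    simp only [hLR]
    rw [B0 s (by omega), conv_zero R1z R2z (by omega), add_zero]
  · intro s hs hs'
    simp only [hLR]
    by_cases h : s ≤ N₁ + N₂ - 1 - (k₁ + k₂)
    · exact add_pos_of_pos_of_nonneg (B1 s hs h) (conv_nonneg R1n R2n s)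
    · rw [B0 s (by omega), zero_add]
      refine conv_pos R1n R2n fR1 (N₁ - k₁) hR1p ?_
      have : N₂ - (s - (N₁ - k₁)) = k₂ := by omega
      simp only [hR2, this]
      exact L_pos h2
  · intro s
    have h5 := hsym (s - 1)
    have h6 := hrel s
    rw [show N₁ + N₂ - 1 - (s - 1) = N₁ + N₂ - s by ring] at h5
    simp only [sub_sub_cancel]
    rw [h5]
    linarith
  · intro s
    rw [← hsym s]
  · intro s
    have := hProd L₁ R₁ b₁ L₂ R₂ b₂ (rel_of h1) (rel_of h2) (hNest N₁ k₁ L₁ b₁ h1)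
      (hNest N₂ k₂ L₂ b₂ h2) s
    simp only [hLR, hBv]
    exact this

end Pool.Agent.Helper81.Arb
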